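import Pool.Agent.H8.PL.Targets

/-! TF: a rotation from a covering of the darts. -/

set_option autoImplicit false

namespace Pool.Agent.H96.PL

open Pool.Agent.H8.PL

theorem pf_tf : Z_TF := by
  intro V _ G D π ρ rv hs h1 h2 h3 h4 h5
  have hfin : Finite G.Dart :=
    Finite.of_injective (fun d : G.Dart => d.toProd) fun d d' h => SimpleGraph.Dart.ext d d' h
  choose e he using hs
  set f : G.Dart → G.Dart := fun x => π (ρ (e x)) with hf
  have hfπ : ∀ d, f (π d) = π (ρ d) := fun d => h2 _ _ (he (π d))
  have hit : ∀ (k : ℕ) d, f^[k] (π d) = π (ρ^[k] d) := by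
    intro k
    induction k with
    | zero => intro d; rfl
    | succ k ih =>
      intro d
      rw [Function.iterate_succ_apply, hfπ, ih, Function.iterate_succ_apply]
  have hsur : Function.Surjective f := by
    intro x
    obtain ⟨k, hk⟩ := h4 (ρ (e x)) (e x) (h3 (e x))
    refine ⟨f^[k] x, ?_⟩
    rw [← Function.iterate_succ_apply' f k x]
    conv_lhs => rw [← he x]
    rw [hit, Function.iterate_succ_apply, hk, he x]
  have hbij : Function.Bijective f := Finite.surjective_iff_bijective.1 hsur
  set σ : Equiv.Perm G.Dart := Equiv.ofBijective f hbij with hσ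
  have hσf : ∀ x, σ x = f x := fun x => rfl
  have hσπ : ∀ d, σ (π d) = π (ρ d) := fun d => hfπ d
  have hpow : ∀ (k : ℕ) x, (σ ^ k) x = f^[k] x := by
    intro k x
    rw [← Equiv.Perm.iterate_eq_pow]
    rfl
  refine ⟨σ, ⟨fun d => ?_, fun d d' hdd => ?_⟩, fun d => ?_⟩
  · have := h3 (e d)
    rw [he d] at this
    exact this
  · obtain ⟨k, hk⟩ := h4 (e d) (e d') (by rw [he, he]; exact hdd)
    refine ⟨(k : ℤ), ?_⟩
    rw [zpow_natCast, hpow]
    conv_lhs => rw [← he d]
    rw [hit, hk, he]
  · have hfp : ∀ a, facePerm G σ (π a) = π (ρ (rv a)) := by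
      intro a
      show σ (π a).symm = _
      rw [← h1, hσπ]
    have h6 := h5 (e d)
    simp only [Function.iterate_succ, Function.iterate_zero, Function.comp_apply, id_eq] at h6
    rw [← he d]
    simp only [pow_succ, pow_zero, one_mul, Equiv.Perm.mul_apply, hfp]
    exact h6

end Pool.Agent.H96.PL
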