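import Pool.Agent.H8.PL.Targets

/-! SR: relativised satisfaction is first-order. -/

set_option autoImplicit false

namespace Pool.Agent.H96.PL

open Pool.Agent.H69.Sp Pool.Agent.H16.TO Pool.Agent.H8.PL

/-- counting from the least element -/
theorem le_ncard_iff {S : Set ℕ} (hS : S.Finite) (k : ℕ) :
    k + 1 ≤ S.ncard ↔ ∃ a ∈ S, k ≤ {b | a < b ∧ b ∈ S}.ncard := by
  constructor
  · intro h
    have hne : S.Nonempty := by
      rw [← Set.ncard_pos hS]
      omega
    refine ⟨sInf S, Nat.sInf_mem hne, ?_⟩
    have he : S ⊆ insert (sInf S) {b | sInf S < b ∧ b ∈ S} := by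
      intro b hb
      rcases Nat.lt_or_ge (sInf S) b with h1 | h1
      · exact Or.inr ⟨h1, hb⟩
      · exact Or.inl (le_antisymm h1 (Nat.sInf_le hb))
    have hf : {b | sInf S < b ∧ b ∈ S}.Finite := hS.subset fun b hb => hb.2
    have h2 := Set.ncard_le_ncard he (hf.insert _)
    have h3 := Set.ncard_insert_le (sInf S) {b | sInf S < b ∧ b ∈ S}
    omega
  · rintro ⟨a, ha, h⟩
    have hf : {b | a < b ∧ b ∈ S}.Finite := hS.subset fun b hb => hb.2
    have h1 : insert a {b | a < b ∧ b ∈ S} ⊆ S := by
      rintro b (rfl | hb)
      · exact ha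
      · exact hb.2
    have h2 : a ∉ {b | a < b ∧ b ∈ S} := fun h => lt_irrefl _ h.1
    have h3 := Set.ncard_le_ncard h1 hS
    rw [Set.ncard_insert_of_notMem h2 hf] at h3
    omega

/-- counting quantifiers -/
theorem cntD (k : ℕ) : ∀ (P : Pd) (m x : ℕ), FD P →
    (∀ N E v w, (∀ i < m, v i = w i) → (P N E v ↔ P N E w)) → x < m →
    FD (fun N E v => k ≤ {a | a < N ∧ P N E (Function.update v x a)}.ncard) := by
  induction k with
  | zero =>
    intro P m x _ _ _
    exact FD.tt.congr fun N E v _ => by simp
  | succ k ih =>
    intro P m x hP hd hx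
    have hxm : x ≠ m := by omega
    have h1 : FD (fun N E v => P N E (Function.update v x (v m))) := by
      refine (FD.ex x ((FD.eq x m).and hP)).congr fun N E v hv => ?_
      simp only [Function.update_self, Function.update_of_ne hxm.symm]
      constructor
      · rintro ⟨a, _, rfl, h⟩
        exact h
      · intro h
        exact ⟨v m, hv m, rfl, h⟩
    have h2 := ih (fun N E v => v m < v x ∧ P N E v) (m + 1) x ((FD.lt m x).and hP)
      (fun N E v w hvw => by
        rw [hvw m (by omega), hvw x (by omega), hd N E v w fun i hi => hvw i (by omega)])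
      (by omega)
    refine (FD.ex m (h1.and h2)).congr fun N E v hv => ?_
    have e1 : ∀ c a, (P N E (Function.update (Function.update v m c) x a) ↔
        P N E (Function.update v x a)) := by
      intro c a
      refine hd _ _ _ _ fun i hi => ?_
      by_cases hix : i = x
      · subst hix
        simp
      · rw [Function.update_of_ne hix, Function.update_of_ne hix, Function.update_of_ne (by omega)]
    have hf : {a | a < N ∧ P N E (Function.update v x a)}.Finite :=
      (Set.finite_lt_nat N).subset fun b hb => hb.1
    rw [le_ncard_iff hf]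
    simp only [Function.update_self, Function.update_of_ne hxm.symm, e1]
    constructor
    · rintro ⟨c, hc, h3, h4⟩
      refine ⟨c, ⟨hc, h3⟩, h4.trans (le_of_eq ?_)⟩
      congr 1
      ext b
      simp only [Set.mem_ofPred_eq]
      tauto
    · rintro ⟨c, ⟨hc, h3⟩, h4⟩
      refine ⟨c, hc, h3, h4.trans (le_of_eq ?_)⟩
      congr 1
      ext b
      simp only [Set.mem_ofPred_eq]
      tauto

theorem pf_sr : Z_SR := by
  intro φ
  induction φ with
  | un i v =>
    cases v
    · exact (FD.par (2 * i) [0]).congr fun N E v _ => by simp [C2.SatN]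
    · exact (FD.par (2 * i) [1]).congr fun N E v _ => by simp [C2.SatN]
  | bi i v w =>
    cases v <;> cases w
    · exact (FD.par 1 [0, 0]).congr fun N E v _ => by simp [C2.SatN]
    · exact (FD.par 1 [0, 1]).congr fun N E v _ => by simp [C2.SatN]
    · exact (FD.par 1 [1, 0]).congr fun N E v _ => by simp [C2.SatN]
    · exact (FD.par 1 [1, 1]).congr fun N E v _ => by simp [C2.SatN]
  | eq v w =>
    cases v <;> cases w
    · exact (FD.eq 0 0).congr fun N E v _ => by simp [C2.SatN]
    · exact (FD.eq 0 1).congr fun N E v _ => by simp [C2.SatN]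
    · exact (FD.eq 1 0).congr fun N E v _ => by simp [C2.SatN]
    · exact (FD.eq 1 1).congr fun N E v _ => by simp [C2.SatN]
  | neg φ ih => exact ih.not
  | and φ ψ ih ih' => exact ih.and ih'
  | cnt k v φ ih =>
    cases v
    · have h1 := cntD k (fun N E v => v 0 < v 2 ∧ φ.SatN (v 2) (fun i a => E (2 * i) [a])
        (fun _ a b => E 1 [a, b]) (fun w => if w then v 1 else v 0)) 3 0 ((FD.lt 0 2).and ih)
        (fun N E v w hvw => by
          rw [hvw 0 (by omega), hvw 1 (by omega), hvw 2 (by omega)]) (by omega)
      refine h1.congr fun N E v hv => ?_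
      have e : ∀ a, Function.update (fun w : Bool => if w then v 1 else v 0) false a =
          fun w => if w then v 1 else a := by
        intro a
        funext w
        cases w <;> simp
      have e1 : (1 : ℕ) ≠ 0 := by omega
      have e2 : (2 : ℕ) ≠ 0 := by omega
      simp only [C2.SatN, e, Function.update_self, Function.update_of_ne e1,
        Function.update_of_ne e2]
      have h2 := hv 2
      have e3 : {a | a < N ∧ a < v 2 ∧ φ.SatN (v 2) (fun i a => E (2 * i) [a])
          (fun _ a b => E 1 [a, b]) (fun w => if w then v 1 else a)} =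
          {a | a < v 2 ∧ φ.SatN (v 2) (fun i a => E (2 * i) [a])
          (fun _ a b => E 1 [a, b]) (fun w => if w then v 1 else a)} := by
        ext a
        simp only [Set.mem_ofPred_eq]
        constructor
        · exact fun h => h.2
        · exact fun h => ⟨by omega, h⟩
      rw [e3]
    · have h1 := cntD k (fun N E v => v 1 < v 2 ∧ φ.SatN (v 2) (fun i a => E (2 * i) [a])
        (fun _ a b => E 1 [a, b]) (fun w => if w then v 1 else v 0)) 3 1 ((FD.lt 1 2).and ih)
        (fun N E v w hvw => by
          rw [hvw 0 (by omega), hvw 1 (by omega), hvw 2 (by omega)]) (by omega)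
      refine h1.congr fun N E v hv => ?_
      have e : ∀ a, Function.update (fun w : Bool => if w then v 1 else v 0) true a =
          fun w => if w then a else v 0 := by
        intro a
        funext w
        cases w <;> simp
      have e1 : (0 : ℕ) ≠ 1 := by omega
      have e2 : (2 : ℕ) ≠ 1 := by omega
      simp only [C2.SatN, e, Function.update_self, Function.update_of_ne e1,
        Function.update_of_ne e2]
      have h2 := hv 2
      have e3 : {a | a < N ∧ a < v 2 ∧ φ.SatN (v 2) (fun i a => E (2 * i) [a])
          (fun _ a b => E 1 [a, b]) (fun w => if w then a else v 0)} =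
          {a | a < v 2 ∧ φ.SatN (v 2) (fun i a => E (2 * i) [a])
          (fun _ a b => E 1 [a, b]) (fun w => if w then a else v 0)} := by
        ext a
        simp only [Set.mem_ofPred_eq]
        constructor
        · exact fun h => h.2
        · exact fun h => ⟨by omega, h⟩
      rw [e3]

end Pool.Agent.H96.PL
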